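import Pool.Agent.Helper31.Rot.Basic

set_option autoImplicit false
set_option linter.unusedSectionVars false

/-!
# Directions in the plane which enter the regular polygons
-/

namespace Pool.Agent.Helper31.Rot

open Set Filter Topology Real

/-- the vertex `exp (2 π i / q)` of the regular `q`-gon -/
noncomputable def zeta (q : ℕ) : ℂ := Complex.exp (2 * π * Complex.I / q)

theorem zeta_prim {q : ℕ} (hq : q ≠ 0) : IsPrimitiveRoot (zeta q) q :=
  Complex.isPrimitiveRoot_exp q hq

theorem zeta_re (q : ℕ) : (zeta q).re = Real.cos (2 * π / q) := by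
  have : (2 * π * Complex.I / q : ℂ) = ((2 * π / q : ℝ) : ℂ) * Complex.I := by push_cast; ring
  rw [zeta, this, Complex.exp_ofReal_mul_I_re]

theorem zeta_im (q : ℕ) : (zeta q).im = Real.sin (2 * π / q) := by
  have : (2 * π * Complex.I / q : ℂ) = ((2 * π / q : ℝ) : ℂ) * Complex.I := by push_cast; ring
  rw [zeta, this, Complex.exp_ofReal_mul_I_im]

variable {E : Type*} [NormedAddCommGroup E] [NormedSpace ℝ E] {ι : Type*} [Fintype ι]
  [DecidableEq ι]

theorem conj_zeta_mem {K : Set (E × (ι → ℂ))} {j : ι} {q : ℕ} (hq : 1 < q)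
    (h : zeta q ∈ Mul K j) : (starRingEnd ℂ) (zeta q) ∈ Mul K j := by
  have h1 : (starRingEnd ℂ) (zeta q) = zeta q ^ (q - 1) := by
    have h2 : zeta q ^ q = 1 := (zeta_prim (by omega)).pow_eq_one
    have h3 : zeta q ^ (q - 1) * zeta q = 1 := by
      rw [← pow_succ, Nat.sub_add_cancel (by omega), h2]
    have h4 : (starRingEnd ℂ) (zeta q) * zeta q = 1 := by
      rw [mul_comm, Complex.mul_conj]
      have : Complex.normSq (zeta q) = 1 := by
        rw [Complex.normSq_apply, zeta_re, zeta_im]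
        nlinarith [Real.sin_sq_add_cos_sq (2 * π / q)]
      rw [this]; simp
    have hne : zeta q ≠ 0 := (zeta_prim (by omega)).ne_zero (by omega)
    exact mul_right_cancel₀ hne (h4.trans h3.symm)
  rw [h1]
  exact pow_mem_Mul h _

/-- The cone of the directions from `1` into the regular `q`-gon. -/
theorem cone_mem {K : Set (E × (ι → ℂ))} (hK : Convex ℝ K) {j : ι} {q : ℕ} (hq : 3 ≤ q)
    (h : zeta q ∈ Mul K j) {w : ℂ}
    (hw : Real.sin (π / q) * |w.im| ≤ Real.cos (π / q) * w.re) :
    ∀ᶠ η : ℝ in 𝓝[>] 0, (1 : ℂ) - η * w ∈ Mul K j := by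
  have hqr : (3 : ℝ) ≤ q := by exact_mod_cast hq
  have hq0 : (0 : ℝ) < q := by linarith
  have hpi := Real.pi_pos
  have hlt : π / q < π / 2 := by
    apply div_lt_div_of_pos_left hpi (by norm_num) (by linarith)
  have hs : 0 < Real.sin (π / q) := Real.sin_pos_of_pos_of_lt_pi (by positivity) (by linarith)
  have hc : 0 < Real.cos (π / q) := Real.cos_pos_of_mem_Ioo ⟨by linarith [div_pos hpi hq0], hlt⟩
  set s := Real.sin (π / q) with hsdef
  set c := Real.cos (π / q) with hcdef
  have hsc : s ^ 2 + c ^ 2 = 1 := Real.sin_sq_add_cos_sq _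
  have hre : (zeta q).re = 1 - 2 * s ^ 2 := by
    rw [zeta_re, show 2 * π / q = 2 * (π / q) by ring, Real.cos_two_mul]
    nlinarith
  have him : (zeta q).im = 2 * s * c := by
    rw [zeta_im, show 2 * π / q = 2 * (π / q) by ring, Real.sin_two_mul]
  -- the coefficients
  set α : ℝ := max w.im 0 / (2 * s * c) with hα
  set β : ℝ := max (-w.im) 0 / (2 * s * c) with hβ
  set γ : ℝ := w.re - |w.im| * s / c with hγ
  have hα0 : 0 ≤ α := by positivity
  have hβ0 : 0 ≤ β := by positivity
  have hγ0 : 0 ≤ γ := by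
    rw [hγ, sub_nonneg, div_le_iff₀ hc]
    linarith
  have hw' : w = α * (1 - (starRingEnd ℂ) (zeta q)) + β * (1 - zeta q) + γ := by
    apply Complex.ext
    · simp only [Complex.add_re, Complex.mul_re, Complex.ofReal_re, Complex.ofReal_im,
        Complex.sub_re, Complex.one_re, Complex.conj_re, Complex.sub_im, Complex.one_im,
        Complex.conj_im, hre, him, zero_mul, sub_zero]
      have h1 : α + β = |w.im| / (2 * s * c) := by
        rw [hα, hβ, ← add_div]
        congr 1
        rcases le_total 0 w.im with h2 | h2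
        · rw [max_eq_left h2, max_eq_right (by linarith), abs_of_nonneg h2]; ring
        · rw [max_eq_right h2, max_eq_left (by linarith), abs_of_nonpos h2]; ring
      have h3 : α * (1 - (1 - 2 * s ^ 2)) + β * (1 - (1 - 2 * s ^ 2)) + γ
          = (α + β) * (2 * s ^ 2) + γ := by ring
      rw [h3, h1, hγ]
      field_simp
      ring
    · simp only [Complex.add_im, Complex.mul_im, Complex.ofReal_re, Complex.ofReal_im,
        Complex.sub_re, Complex.one_re, Complex.conj_re, Complex.sub_im, Complex.one_im,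
        Complex.conj_im, hre, him, zero_mul, add_zero]
      have h1 : α - β = w.im / (2 * s * c) := by
        rw [hα, hβ, ← sub_div]
        congr 1
        rcases le_total 0 w.im with h2 | h2
        · rw [max_eq_left h2, max_eq_right (by linarith)]; ring
        · rw [max_eq_right h2, max_eq_left (by linarith)]; ring
      have h3 : α * (0 - -(2 * s * c)) + β * (0 - 2 * s * c) = (α - β) * (2 * s * c) := by ring
      rw [h3, h1]
      field_simp
  -- small `η`
  have hev : ∀ᶠ η : ℝ in 𝓝[>] 0, η * (α + β + γ) ≤ 1 := by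
    have h1 : Tendsto (fun η : ℝ => η * (α + β + γ)) (𝓝 0) (𝓝 (0 * (α + β + γ))) :=
      tendsto_id.mul_const _
    rw [zero_mul] at h1
    exact (h1.eventually (eventually_le_nhds one_pos)).filter_mono nhdsWithin_le_nhds
  have h0 : (0 : ℂ) ∈ Mul K j := zero_mem_Mul hK (by omega) (zeta_prim (by omega)) h
  filter_upwards [hev, self_mem_nhdsWithin] with η hη hη0
  have hη0' : (0 : ℝ) < η := hη0
  have hconv := convex_Mul hK j
  -- a convex combination of `1, conj ζ, ζ, 0`
  have h4 : ∑ i : Fin 4, (![1 - η * (α + β + γ), η * α, η * β, η * γ] i) •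
      (![1, (starRingEnd ℂ) (zeta q), zeta q, 0] i : ℂ) ∈ Mul K j := by
    refine hconv.sum_mem ?_ ?_ ?_
    · intro i _
      fin_cases i
      · simpa using hη
      · simp; positivity
      · simp; positivity
      · simp; positivity
    · simp [Fin.sum_univ_four]; ring
    · intro i _
      fin_cases i
      · exact one_mem_Mul K j
      · exact conj_zeta_mem (by omega) h
      · exact h
      · exact h0
  convert h4 using 1
  conv_lhs => rw [hw']
  simp [Fin.sum_univ_four]
  ring

/-- Arcs: among `N` equally spaced directions, `a` consecutive ones enter the regular `q`-gon at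
a given vertex, if `a < N (1/2 - 1/q)`. -/
theorem arc {N a q : ℕ} [NeZero N] (hq : 3 ≤ q) (ha : 1 ≤ a)
    (haN : (a : ℝ) < N * (1 / 2 - 1 / q)) :
    ∃ δ : ℝ, 0 < δ ∧ ∀ z : ℂ, z ≠ 0 → ∃ k : ZMod N, ∀ i < a, ∀ e : ℂ,
      e = ZMod.stdAddChar (k + (i : ZMod N)) →
      δ * ‖z‖ ≤ Real.cos (π / q) * (e * (starRingEnd ℂ) z).re
        - Real.sin (π / q) * |(e * (starRingEnd ℂ) z).im| := by
  have hqr : (3 : ℝ) ≤ q := by exact_mod_cast hq
  have hq0 : (0 : ℝ) < q := by linarith
  have hN0 : (0 : ℝ) < N := by exact_mod_cast Nat.pos_of_ne_zero (NeZero.ne N)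
  have hpi := Real.pi_pos
  have ha0 : (1 : ℝ) ≤ a := by exact_mod_cast ha
  set θ : ℝ := π * a / N + π / q with hθ
  have hθlt : θ < π / 2 := by
    have h1 : π * a / N < π * (1 / 2 - 1 / q) := by
      rw [mul_div_assoc]
      apply mul_lt_mul_of_pos_left _ hpi
      rw [div_lt_iff₀ hN0]
      linarith
    rw [hθ]
    calc π * a / N + π / q < π * (1 / 2 - 1 / q) + π / q := by linarith
      _ = π / 2 := by ring
  have hθ0 : 0 < θ := by positivity
  refine ⟨Real.cos θ, Real.cos_pos_of_mem_Ioo ⟨by linarith, hθlt⟩, ?_⟩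
  intro z hz
  set φ : ℝ := Complex.arg z with hφ
  set c : ℝ := φ * N / (2 * π) with hc
  set k : ℤ := ⌈c - a / 2⌉ with hk
  refine ⟨(k : ZMod N), ?_⟩
  intro i hi e he
  have hi' : (i : ℝ) ≤ a - 1 := by
    have : (i : ℝ) + 1 ≤ a := by exact_mod_cast hi
    linarith
  have hi0 : (0 : ℝ) ≤ i := by positivity
  have h1 : c - a / 2 ≤ k := Int.le_ceil _
  have h2 : (k : ℝ) < c - a / 2 + 1 := Int.ceil_lt_add_one _
  set ψ : ℝ := 2 * π * ((k : ℝ) + i) / N - φ with hψ
  have hφc : φ = 2 * π * c / N := by rw [hc]; field_simp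
  have hψ' : ψ = 2 * π * ((k : ℝ) + i - c) / N := by rw [hψ, hφc]; ring
  have hψabs : |ψ| ≤ π * a / N := by
    have h3 : |(k : ℝ) + i - c| ≤ a / 2 := by
      rw [abs_le]
      constructor <;> linarith
    rw [hψ', abs_div, abs_mul, abs_of_pos (by positivity : (0 : ℝ) < 2 * π), abs_of_pos hN0]
    rw [div_le_div_iff_of_pos_right hN0]
    nlinarith
  -- the product
  have hprod : e * (starRingEnd ℂ) z = ((‖z‖ : ℝ) : ℂ) * Complex.exp (ψ * Complex.I) := by
    have h3 : ((k : ZMod N) + (i : ZMod N)) = ((k + i : ℤ) : ZMod N) := by push_cast; rfl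
    rw [he, h3, ZMod.stdAddChar_coe]
    have hzz : z = ((‖z‖ : ℝ) : ℂ) * Complex.exp (φ * Complex.I) :=
      (Complex.norm_mul_exp_arg_mul_I z).symm
    conv_lhs => rw [hzz]
    rw [map_mul, Complex.conj_ofReal, ← Complex.exp_conj]
    have h4 : (starRingEnd ℂ) (φ * Complex.I) = -(φ * Complex.I) := by simp
    rw [h4]
    rw [mul_left_comm, ← Complex.exp_add]
    congr 2
    rw [hψ]
    push_cast
    ring
  have hre : (e * (starRingEnd ℂ) z).re = ‖z‖ * Real.cos ψ := by
    rw [hprod, Complex.re_ofReal_mul, Complex.exp_ofReal_mul_I_re]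
  have him : (e * (starRingEnd ℂ) z).im = ‖z‖ * Real.sin ψ := by
    rw [hprod, Complex.im_ofReal_mul, Complex.exp_ofReal_mul_I_im]
  rw [hre, him, abs_mul, abs_of_nonneg (norm_nonneg z)]
  have hlt : π / q ≤ π / 3 := by
    apply div_le_div_of_nonneg_left hpi.le (by norm_num) hqr
  have hψpi : |ψ| < π := by
    have : π / q > 0 := by positivity
    have h5 : |ψ| ≤ θ := by rw [hθ]; linarith
    linarith
  have hsin : |Real.sin ψ| = Real.sin |ψ| := Real.abs_sin_eq_sin_abs_of_abs_le_pi hψpi.le
  have hcos : Real.cos ψ = Real.cos |ψ| := (Real.cos_abs ψ).symm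
  have h6 : Real.cos θ ≤ Real.cos (|ψ| + π / q) := by
    apply Real.cos_le_cos_of_nonneg_of_le_pi
    · positivity
    · linarith
    · rw [hθ]; linarith
  rw [Real.cos_add |ψ|] at h6
  have hz0 := norm_nonneg z
  rw [hsin, hcos]
  have h7 := mul_le_mul_of_nonneg_right h6 hz0
  linarith

end Pool.Agent.Helper31.Rot
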