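import Mathlib

set_option autoImplicit false
set_option linter.unusedSectionVars false

/-!
# From illumination to coverings, and multipliers of a convex set
-/

namespace Pool.Agent.Helper31.Rot

open Set Filter Topology

section Illum

variable {V : Type*} [NormedAddCommGroup V] [NormedSpace ℝ V]

/-- Illumination of all points by finitely many directions gives a covering by as many
translates of the interior. -/
theorem cover_of_illum {K : Set V} (hK : Convex ℝ K) (hKc : IsCompact K) (D : Finset V)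
    (h : ∀ x ∈ K, ∃ d ∈ D, ∃ ε : ℝ, 0 < ε ∧ x + ε • d ∈ interior K) :
    ∃ T : Finset V, T.card ≤ D.card ∧ K ⊆ ⋃ t ∈ T, (fun x => t + x) '' interior K := by
  classical
  have hmono : ∀ x ∈ K, ∀ d : V, ∀ ε ε' : ℝ, 0 < ε' → ε' ≤ ε → x + ε • d ∈ interior K →
      x + ε' • d ∈ interior K := by
    intro x hx d ε ε' h0 hle hxd
    have hε : 0 < ε := h0.trans_le hle
    have h1 : ε' / ε ≤ 1 := (div_le_one hε).mpr hle
    have h2 : 0 < ε' / ε := div_pos h0 hε
    have := hK.combo_self_interior_mem_interior hx hxd (sub_nonneg.mpr h1) h2 (by ring)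
    have e : (1 - ε' / ε) • x + (ε' / ε) • (x + ε • d) = x + ε' • d := by
      rw [smul_add, smul_smul, div_mul_cancel₀ _ hε.ne', ← add_assoc, ← add_smul]
      simp
    rwa [e] at this
  let U : ℕ → Set V := fun n => ⋃ d ∈ D, {x | x + (1 / ((n : ℝ) + 1)) • d ∈ interior K}
  have hU : ∀ n, IsOpen (U n) := by
    intro n
    refine isOpen_biUnion fun d _ => ?_
    exact isOpen_interior.preimage (by fun_prop)
  have hcov : K ⊆ ⋃ n, U n := by
    intro x hx
    obtain ⟨d, hd, ε, hε, hxd⟩ := h x hx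
    obtain ⟨n, hn⟩ := exists_nat_one_div_lt hε
    simp only [mem_iUnion]
    refine ⟨n, ?_⟩
    simp only [U, mem_iUnion]
    exact ⟨d, hd, hmono x hx d ε _ (by positivity) hn.le hxd⟩
  obtain ⟨t, ht⟩ := hKc.elim_finite_subcover U hU hcov
  let N := t.sup id
  refine ⟨D.image fun d => -((1 / ((N : ℝ) + 1)) • d), Finset.card_image_le, ?_⟩
  intro x hx
  have h1 := ht hx
  simp only [U, mem_iUnion] at h1
  obtain ⟨n, hn, d, hd, hxd⟩ := h1
  have hnN : n ≤ N := Finset.le_sup (f := id) hn
  have h2 : (1 / ((N : ℝ) + 1)) ≤ 1 / ((n : ℝ) + 1) := by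
    have : (n : ℝ) ≤ N := by exact_mod_cast hnN
    exact one_div_le_one_div_of_le (by positivity) (by linarith)
  have h3 := hmono x hx d _ _ (by positivity) h2 hxd
  simp only [mem_iUnion]
  refine ⟨-((1 / ((N : ℝ) + 1)) • d), Finset.mem_image_of_mem _ hd, _, h3, ?_⟩
  simp

end Illum

section Mult

variable {E : Type*} [NormedAddCommGroup E] [NormedSpace ℝ E] {ι : Type*} [Fintype ι]
  [DecidableEq ι]

/-- Multiply the `j`-th complex coordinate by `c`. -/
def mulAt (j : ι) (c : ℂ) (p : E × (ι → ℂ)) : E × (ι → ℂ) :=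
  (p.1, Function.update p.2 j (c * p.2 j))

/-- The multipliers of `K` in the `j`-th coordinate. -/
def Mul (K : Set (E × (ι → ℂ))) (j : ι) : Set ℂ := {c | ∀ p ∈ K, mulAt j c p ∈ K}

theorem mulAt_mulAt (j : ι) (c c' : ℂ) (p : E × (ι → ℂ)) :
    mulAt j c (mulAt j c' p) = mulAt j (c * c') p := by
  simp [mulAt, mul_assoc]

theorem mulAt_one (j : ι) (p : E × (ι → ℂ)) : mulAt j 1 p = p := by
  simp [mulAt]

theorem mulAt_combo (j : ι) (c c' : ℂ) (a b : ℝ) (hab : a + b = 1) (p : E × (ι → ℂ)) :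
    mulAt j ((a : ℂ) * c + b * c') p = a • mulAt j c p + b • mulAt j c' p := by
  refine Prod.ext ?_ ?_
  · change p.1 = a • p.1 + b • p.1
    rw [← add_smul, hab, one_smul]
  · funext i
    by_cases hi : i = j
    · subst hi
      simp [mulAt]
      ring
    · simp only [mulAt, Prod.snd_add, Prod.smul_snd, Pi.add_apply, Pi.smul_apply,
        Function.update_of_ne hi, Complex.real_smul]
      rw [← add_mul]
      have : ((a : ℂ) + b) = 1 := by exact_mod_cast hab
      rw [this, one_mul]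

theorem one_mem_Mul (K : Set (E × (ι → ℂ))) (j : ι) : (1 : ℂ) ∈ Mul K j := by
  intro p hp
  rwa [mulAt_one]

theorem mul_mem_Mul {K : Set (E × (ι → ℂ))} {j : ι} {c c' : ℂ} (h : c ∈ Mul K j)
    (h' : c' ∈ Mul K j) : c * c' ∈ Mul K j := by
  intro p hp
  rw [← mulAt_mulAt]
  exact h _ (h' _ hp)

theorem pow_mem_Mul {K : Set (E × (ι → ℂ))} {j : ι} {c : ℂ} (h : c ∈ Mul K j) (n : ℕ) :
    c ^ n ∈ Mul K j := by
  induction n with
  | zero => simpa using one_mem_Mul K j
  | succ n ih => rw [pow_succ]; exact mul_mem_Mul ih h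

theorem convex_Mul {K : Set (E × (ι → ℂ))} (hK : Convex ℝ K) (j : ι) : Convex ℝ (Mul K j) := by
  intro c hc c' hc' a b ha hb hab p hp
  have := hK (hc p hp) (hc' p hp) ha hb hab
  rw [← mulAt_combo j c c' a b hab] at this
  simpa [Complex.real_smul] using this

/-- The average of the powers of a nontrivial root of unity. -/
theorem zero_mem_Mul {K : Set (E × (ι → ℂ))} (hK : Convex ℝ K) {j : ι} {c : ℂ} {q : ℕ}
    (hq : 1 < q) (hc : IsPrimitiveRoot c q) (h : c ∈ Mul K j) : (0 : ℂ) ∈ Mul K j := by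
  have h1 : ∑ i ∈ Finset.range q, ((1 : ℝ) / q) • c ^ i ∈ Mul K j := by
    refine (convex_Mul hK j).sum_mem (fun _ _ => by positivity) ?_ fun i _ => pow_mem_Mul h i
    have : (q : ℝ) ≠ 0 := by positivity
    simp [this]
  rw [← Finset.smul_sum, hc.geom_sum_eq_zero hq, smul_zero] at h1
  exact h1

/-- Multipliers in all the coordinates. -/
theorem mul_all {K : Set (E × (ι → ℂ))} (c : ι → ℂ) (h : ∀ j, c j ∈ Mul K j)
    {p : E × (ι → ℂ)} (hp : p ∈ K) : (p.1, fun j => c j * p.2 j) ∈ K := by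
  have key : ∀ S : Finset ι, (p.1, fun j => if j ∈ S then c j * p.2 j else p.2 j) ∈ K := by
    intro S
    induction S using Finset.induction_on with
    | empty => simpa using hp
    | insert a S ha ih =>
      have := h a _ ih
      convert this using 1
      refine Prod.ext rfl ?_
      funext i
      by_cases hi : i = a
      · subst hi
        simp [mulAt, ha]
      · simp [mulAt, hi]
  simpa using key Finset.univ

/-- Projections: over interior points of the projection the centres of the fibres are interior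
points. -/
theorem centre_mem_interior {K : Set (E × (ι → ℂ))} (hK : Convex ℝ K)
    (hKi : (interior K).Nonempty) {b : E}
    (hb : b ∈ interior (Prod.fst '' K)) (q : ι → ℕ) (ζ : ι → ℂ)
    (hq : ∀ j, 1 < q j) (hζ : ∀ j, IsPrimitiveRoot (ζ j) (q j)) (hζK : ∀ j, ζ j ∈ Mul K j) :
    (b, (0 : ι → ℂ)) ∈ interior K := by
  -- the multiplication by `ζ j` preserves the interior
  have hne : ∀ j, ζ j ≠ 0 := fun j => (hζ j).ne_zero (by have := hq j; omega)
  have hcont : ∀ (j : ι) (c : ℂ), Continuous (mulAt j c : E × (ι → ℂ) → E × (ι → ℂ)) := by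
    intro j c
    unfold mulAt
    refine continuous_fst.prodMk ?_
    exact continuous_snd.update j (continuous_const.mul ((continuous_apply j).comp continuous_snd))
  have hinv : ∀ (j : ι) (c : ℂ), c ≠ 0 → ∀ p : E × (ι → ℂ), mulAt j c (mulAt j c⁻¹ p) = p := by
    intro j c hc p
    rw [mulAt_mulAt, mul_inv_cancel₀ hc, mulAt_one]
  have hint : ∀ j, ζ j ∈ Mul (interior K) j := by
    intro j p hp
    have hopen : IsOpen (mulAt j (ζ j)⁻¹ ⁻¹' interior K : Set (E × (ι → ℂ))) :=
      isOpen_interior.preimage (hcont j _)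
    have hsub : (mulAt j (ζ j)⁻¹ ⁻¹' interior K : Set (E × (ι → ℂ))) ⊆ K := by
      intro y hy
      have h1 := hζK j _ (interior_subset hy)
      rwa [hinv j _ (hne j)] at h1
    have hmem : mulAt j (ζ j) p ∈ (mulAt j (ζ j)⁻¹ ⁻¹' interior K : Set (E × (ι → ℂ))) := by
      change mulAt j (ζ j)⁻¹ (mulAt j (ζ j) p) ∈ interior K
      rwa [mulAt_mulAt, inv_mul_cancel₀ (hne j), mulAt_one]
    exact interior_maximal hsub hopen hmem
  -- an interior point over `b`
  obtain ⟨⟨x0, z0⟩, h00⟩ := hKi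
  obtain ⟨z, hz⟩ : ∃ z, (b, z) ∈ interior K := by
    have hc : Continuous fun τ : ℝ => b + τ • (b - x0) := by fun_prop
    have h1 : ∀ᶠ τ : ℝ in 𝓝 0, b + τ • (b - x0) ∈ interior (Prod.fst '' K) := by
      have h2 := hc.tendsto 0
      rw [zero_smul, add_zero] at h2
      exact h2.eventually (isOpen_interior.mem_nhds hb)
    have h2 : ∀ᶠ τ : ℝ in 𝓝[>] 0, b + τ • (b - x0) ∈ interior (Prod.fst '' K) :=
      h1.filter_mono nhdsWithin_le_nhds
    obtain ⟨τ, hτ, hτ0⟩ := (h2.and self_mem_nhdsWithin).exists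
    have hτ0 : (0 : ℝ) < τ := hτ0
    obtain ⟨⟨y, w⟩, hyK, hy⟩ := interior_subset hτ
    change y = b + τ • (b - x0) at hy
    have h3 := hK.combo_interior_self_mem_interior h00 hyK
      (show 0 < τ / (1 + τ) by positivity) (show (0 : ℝ) ≤ 1 / (1 + τ) by positivity)
      (by field_simp; ring)
    refine ⟨(τ / (1 + τ)) • z0 + (1 / (1 + τ)) • w, ?_⟩
    convert h3 using 1
    refine Prod.ext ?_ rfl
    change b = (τ / (1 + τ)) • x0 + (1 / (1 + τ)) • y
    rw [hy, smul_add, smul_smul, smul_sub, one_div_mul_eq_div]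
    have e : (1 : ℝ) / (1 + τ) + τ / (1 + τ) = 1 := by
      rw [← add_div, div_self (by positivity)]
    calc b = (1 : ℝ) • b := (one_smul _ _).symm
      _ = ((1 : ℝ) / (1 + τ) + τ / (1 + τ)) • b := by rw [e]
      _ = _ := by rw [add_smul]; abel
  -- average over the rotations
  have h0' : ∀ j, (0 : ℂ) ∈ Mul (interior K) j := fun j =>
    zero_mem_Mul hK.interior (hq j) (hζ j) (hint j)
  have := mul_all (fun _ => (0 : ℂ)) h0' hz
  simp only [zero_mul] at this
  exact this

end Mult

end Pool.Agent.Helper31.Rot
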