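import Mathlib

set_option autoImplicit false

/-!
# Hitting sets
-/

namespace Pool.Agent.Helper31.Rot

open Finset

/-- Greedy hitting sets: after `t` steps at most the fraction `(1 - c / |Ω|) ^ t` is not hit. -/
theorem greedy {Ω I : Type*} [Fintype Ω] [DecidableEq Ω] [Nonempty Ω] (A : I → Finset Ω)
    (J : Finset I) (c : ℝ) (hc : ∀ i, c ≤ (A i).card) (hcΩ : c ≤ Fintype.card Ω) (t : ℕ) :
    ∃ H : Finset Ω, H.card ≤ t ∧
      (((J.filter fun i => Disjoint (A i) H).card : ℕ) : ℝ)
        ≤ (1 - c / Fintype.card Ω) ^ t * J.card := by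
  classical
  have hM : (0 : ℝ) < Fintype.card Ω := by exact_mod_cast Fintype.card_pos
  have hp : 0 ≤ 1 - c / Fintype.card Ω := by
    rw [sub_nonneg, div_le_one hM]
    exact hcΩ
  induction t with
  | zero => exact ⟨∅, by simp, by simp⟩
  | succ t ih =>
    obtain ⟨H, hH, hH'⟩ := ih
    set J' := J.filter fun i => Disjoint (A i) H with hJ'
    -- the best element
    obtain ⟨ω, hω⟩ : ∃ ω : Ω, c / Fintype.card Ω * J'.card
        ≤ (((J'.filter fun i => ω ∈ A i).card : ℕ) : ℝ) := by
      by_contra hcon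
      push Not at hcon
      have h1 : ∑ ω : Ω, (((J'.filter fun i => ω ∈ A i).card : ℕ) : ℝ)
          < ∑ _ω : Ω, c / Fintype.card Ω * J'.card :=
        sum_lt_sum_of_nonempty univ_nonempty fun ω _ => hcon ω
      have h2 : ∑ ω : Ω, (((J'.filter fun i => ω ∈ A i).card : ℕ) : ℝ)
          = ∑ i ∈ J', ((A i).card : ℝ) := by
        have h3 : ∀ ω : Ω, (((J'.filter fun i => ω ∈ A i).card : ℕ) : ℝ)
            = ∑ i ∈ J', if ω ∈ A i then (1 : ℝ) else 0 := by
          intro ω
          rw [card_filter]
          push_cast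
          rfl
        simp_rw [h3]
        rw [sum_comm]
        refine sum_congr rfl fun i _ => ?_
        rw [← sum_filter]
        simp
      have h4 : ∑ _i ∈ J', c ≤ ∑ i ∈ J', ((A i).card : ℝ) := sum_le_sum fun i _ => hc i
      rw [h2] at h1
      simp only [sum_const, nsmul_eq_mul, card_univ] at h1 h4
      have h5 : (Fintype.card Ω : ℝ) * (c / Fintype.card Ω * J'.card) = J'.card * c := by
        field_simp
      linarith
    refine ⟨insert ω H, (card_insert_le _ _).trans (by omega), ?_⟩
    have h6 : (J.filter fun i => Disjoint (A i) (insert ω H)) ⊆ J'.filter fun i => ω ∉ A i := by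
      intro i hi
      simp only [mem_filter, hJ', disjoint_insert_right] at hi ⊢
      tauto
    have h7 : ((J'.filter fun i => ω ∉ A i).card : ℝ)
        = J'.card - ((J'.filter fun i => ω ∈ A i).card : ℕ) := by
      have := card_filter_add_card_filter_not (s := J') (fun i => ω ∈ A i)
      rw [eq_sub_iff_add_eq]
      rw [add_comm]
      exact_mod_cast this
    calc (((J.filter fun i => Disjoint (A i) (insert ω H)).card : ℕ) : ℝ)
        ≤ ((J'.filter fun i => ω ∉ A i).card : ℝ) := by exact_mod_cast card_le_card h6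
      _ = J'.card - ((J'.filter fun i => ω ∈ A i).card : ℕ) := h7
      _ ≤ J'.card - c / Fintype.card Ω * J'.card := by linarith
      _ = (1 - c / Fintype.card Ω) * J'.card := by ring
      _ ≤ (1 - c / Fintype.card Ω) * ((1 - c / Fintype.card Ω) ^ t * J.card) := by gcongr
      _ = (1 - c / Fintype.card Ω) ^ (t + 1) * J.card := by ring

/-- Hitting sets: sets `A i`, `i ∈ I`, with at least `c` elements of `Ω` are all hit by at
most `1 + log |I| · |Ω| / c` elements. -/
theorem hitting {Ω I : Type*} [Fintype Ω] [DecidableEq Ω] [Fintype I] [Nonempty I]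
    (A : I → Finset Ω) (c : ℝ) (hc0 : 0 < c) (hc : ∀ i, c ≤ (A i).card) :
    ∃ H : Finset Ω, (H.card : ℝ) ≤ 1 + Real.log (Fintype.card I) * (Fintype.card Ω / c) ∧
      ∀ i, ∃ ω ∈ H, ω ∈ A i := by
  classical
  have i0 : I := Classical.arbitrary I
  have hne : (A i0).Nonempty := by
    rw [← card_pos]
    have := hc0.trans_le (hc i0)
    exact_mod_cast this
  haveI : Nonempty Ω := ⟨hne.choose⟩
  have hM : (0 : ℝ) < Fintype.card Ω := by exact_mod_cast Fintype.card_pos
  have hcΩ : c ≤ Fintype.card Ω := (hc i0).trans (by exact_mod_cast card_le_univ _)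
  have hI : (1 : ℝ) ≤ Fintype.card I := by exact_mod_cast Fintype.card_pos
  have hlog : 0 ≤ Real.log (Fintype.card I) := Real.log_nonneg hI
  set x : ℝ := Real.log (Fintype.card I) * (Fintype.card Ω / c) with hx
  have hx0 : 0 ≤ x := by positivity
  obtain ⟨H, hH, hH'⟩ := greedy A univ c hc hcΩ (⌊x⌋₊ + 1)
  refine ⟨H, ?_, ?_⟩
  · have h1 : (H.card : ℝ) ≤ (⌊x⌋₊ + 1 : ℕ) := by exact_mod_cast hH
    have h2 := Nat.floor_le hx0
    push_cast at h1
    linarith
  · by_contra hcon
    push Not at hcon
    obtain ⟨i, hi⟩ := hcon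
    have h3 : (1 : ℝ) ≤ ((univ.filter fun i => Disjoint (A i) H).card : ℕ) := by
      have : 0 < (univ.filter fun i => Disjoint (A i) H).card := by
        rw [card_pos]
        refine ⟨i, ?_⟩
        simp only [mem_filter, mem_univ, true_and]
        rw [disjoint_left]
        intro ω h1 h2
        exact hi ω h2 h1
      exact_mod_cast this
    set p : ℝ := c / Fintype.card Ω with hp
    have hp0 : 0 < p := by positivity
    have hp1 : p ≤ 1 := (div_le_one hM).mpr hcΩ
    have h4 : (1 - p) ^ (⌊x⌋₊ + 1) ≤ Real.exp (-p) ^ (⌊x⌋₊ + 1) := by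
      apply pow_le_pow_left₀ (by linarith)
      have := Real.add_one_le_exp (-p)
      linarith
    have h5 : Real.exp (-p) ^ (⌊x⌋₊ + 1) < 1 / Fintype.card I := by
      rw [← Real.exp_nat_mul]
      have h6 : ((⌊x⌋₊ + 1 : ℕ) : ℝ) * -p < -Real.log (Fintype.card I) := by
        have h7 : x < ((⌊x⌋₊ + 1 : ℕ) : ℝ) := by push_cast; exact Nat.lt_floor_add_one x
        have h8 : x * p = Real.log (Fintype.card I) := by
          rw [hx, hp]
          field_simp
        nlinarith
      calc Real.exp (((⌊x⌋₊ + 1 : ℕ) : ℝ) * -p) < Real.exp (-Real.log (Fintype.card I)) :=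
            Real.exp_lt_exp.mpr h6
        _ = 1 / Fintype.card I := by
            rw [Real.exp_neg, Real.exp_log (by linarith), one_div]
    have h9 : (1 - p) ^ (⌊x⌋₊ + 1) * (univ : Finset I).card < 1 := by
      rw [card_univ]
      have h10 : (1 - p) ^ (⌊x⌋₊ + 1) < 1 / Fintype.card I := h4.trans_lt h5
      have hI0 : (0 : ℝ) < Fintype.card I := by linarith
      rwa [lt_div_iff₀ hI0] at h10
    linarith

/-- The patterns: `none` in the places of `none`, and one of the `a` elements following `k` in
the places of `some k`. -/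
def Fits {ι : Type*} {N : ℕ} (a : ℕ) (κ ω : ι → Option (ZMod N)) : Prop :=
  ∀ j, (κ j = none ∧ ω j = none) ∨ ∃ k, κ j = some k ∧ ∃ i < a, ω j = some (k + (i : ZMod N))

/-- All patterns are fitted by few sequences. -/
theorem patterns {s N a : ℕ} [NeZero N] (ha : 1 ≤ a) (haN : a ≤ N) :
    ∃ H : Finset (Fin s → Option (ZMod N)),
      (H.card : ℝ) ≤ 1 + s * Real.log (N + 1) * (1 + N / a) ^ s ∧
      ∀ κ : Fin s → Option (ZMod N), ∃ ω ∈ H, Fits a κ ω := by
  classical
  let C : Option (ZMod N) → Finset (ZMod N ⊕ Fin a) := fun o => match o with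
    | none => univ.map ⟨Sum.inr, Sum.inr_injective⟩
    | some k => (range a).image fun i : ℕ => Sum.inl (k + (i : ZMod N))
  have hC : ∀ o, (C o).card = a := by
    intro o
    match o with
    | none => simp [C]
    | some k =>
      change ((range a).image fun i : ℕ => (Sum.inl (k + (i : ZMod N)) : ZMod N ⊕ Fin a)).card = a
      rw [card_image_of_injOn, card_range]
      intro i hi i' hi' h
      simp only [coe_range, Set.mem_Iio] at hi hi'
      have h1 : (i : ZMod N) = (i' : ZMod N) := by
        have := Sum.inl_injective h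
        exact add_left_cancel this
      rw [ZMod.natCast_eq_natCast_iff'] at h1
      rwa [Nat.mod_eq_of_lt (hi.trans_le haN), Nat.mod_eq_of_lt (hi'.trans_le haN)] at h1
  let A : (Fin s → Option (ZMod N)) → Finset (Fin s → ZMod N ⊕ Fin a) := fun κ =>
    Fintype.piFinset fun j => C (κ j)
  have hA : ∀ κ, (((a : ℝ)) ^ s) ≤ (A κ).card := by
    intro κ
    have : (A κ).card = a ^ s := by
      rw [Fintype.card_piFinset]
      simp [hC]
    rw [this]
    push_cast
    exact le_rfl
  have ha0 : (0 : ℝ) < a := by exact_mod_cast ha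
  obtain ⟨H, hH, hH'⟩ := hitting A ((a : ℝ) ^ s) (by positivity) hA
  let f : (Fin s → ZMod N ⊕ Fin a) → (Fin s → Option (ZMod N)) := fun ω j =>
    match ω j with
    | Sum.inl k => some k
    | Sum.inr _ => none
  refine ⟨H.image f, ?_, ?_⟩
  · have h1 : ((H.image f).card : ℝ) ≤ H.card := by exact_mod_cast card_image_le
    refine h1.trans (hH.trans (le_of_eq ?_))
    have h2 : (Fintype.card (Fin s → Option (ZMod N)) : ℝ) = (N + 1) ^ s := by
      rw [Fintype.card_fun, Fintype.card_option, ZMod.card, Fintype.card_fin]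
      push_cast
      rfl
    have h3 : (Fintype.card (Fin s → ZMod N ⊕ Fin a) : ℝ) = (N + a) ^ s := by
      rw [Fintype.card_fun, Fintype.card_sum, ZMod.card, Fintype.card_fin, Fintype.card_fin]
      push_cast
      rfl
    rw [h2, h3, Real.log_pow, ← div_pow]
    congr 2
    congr 1
    field_simp
    ring
  · intro κ
    obtain ⟨ω, hω, hωA⟩ := hH' κ
    refine ⟨f ω, mem_image_of_mem _ hω, ?_⟩
    intro j
    have h4 : ω j ∈ C (κ j) := Fintype.mem_piFinset.mp hωA j
    cases hκ : κ j with
    | none =>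
      left
      refine ⟨rfl, ?_⟩
      rw [hκ] at h4
      simp only [C, mem_map, mem_univ, true_and, Function.Embedding.coeFn_mk] at h4
      obtain ⟨b, hb⟩ := h4
      simp only [f]
      rw [← hb]
    | some k =>
      right
      refine ⟨k, rfl, ?_⟩
      rw [hκ] at h4
      simp only [C, mem_image, mem_range] at h4
      obtain ⟨i, hi, hi'⟩ := h4
      refine ⟨i, hi, ?_⟩
      simp only [f]
      rw [← hi']

end Pool.Agent.Helper31.Rot
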