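import Pool.Agent.Helper31.Rot.Arc
import Pool.Agent.Helper31.Rot.Hit

set_option autoImplicit false
set_option linter.unusedSectionVars false

/-!
# The covering of a body with rotational symmetries by means of a covering of its projection
-/

namespace Pool.Agent.Helper31.Rot

open Set Filter Topology Real

variable {E : Type*} [NormedAddCommGroup E] [NormedSpace ℝ E]

/-- the direction of an element of a pattern -/
noncomputable def dirOf {N : ℕ} [NeZero N] (o : Option (ZMod N)) : ℂ :=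
  match o with
  | none => 0
  | some k => ZMod.stdAddChar k

theorem cone_of_arc {q : ℕ} {δ R : ℝ} (hδ : 0 < δ) {z e : ℂ} (hz : z ≠ 0) (hR : ‖z‖ ≤ R)
    (he : δ * ‖z‖ ≤ Real.cos (π / q) * (e * (starRingEnd ℂ) z).re
        - Real.sin (π / q) * |(e * (starRingEnd ℂ) z).im|) :
    Real.sin (π / q) * |(((R / δ : ℝ) : ℂ) * e / z - 1).im|
      ≤ Real.cos (π / q) * (((R / δ : ℝ) : ℂ) * e / z - 1).re := by
  have hz0 : 0 < ‖z‖ := norm_pos_iff.mpr hz
  have hR0 : 0 < R := hz0.trans_le hR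
  have hΛ : 0 < R / δ := div_pos hR0 hδ
  have hn : Complex.normSq z = ‖z‖ ^ 2 := Complex.normSq_eq_norm_sq z
  have e1 : ((R / δ : ℝ) : ℂ) * e / z - 1
      = ((R / δ / ‖z‖ ^ 2 : ℝ) : ℂ) * (e * (starRingEnd ℂ) z) - 1 := by
    rw [div_eq_mul_inv, Complex.inv_def, hn]
    push_cast
    ring
  have hL : 0 < R / δ / ‖z‖ ^ 2 := by positivity
  rw [e1, Complex.sub_im, Complex.sub_re, Complex.im_ofReal_mul, Complex.re_ofReal_mul,
    Complex.one_im, Complex.one_re, sub_zero, abs_mul, abs_of_pos hL]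
  have h1 := mul_le_mul_of_nonneg_left he hL.le
  have h2 : 1 ≤ R / δ / ‖z‖ ^ 2 * (δ * ‖z‖) := by
    have : R / δ / ‖z‖ ^ 2 * (δ * ‖z‖) = R / ‖z‖ := by
      field_simp
    rw [this, le_div_iff₀ hz0]
    linarith
  have h3 := Real.cos_le_one (π / q)
  nlinarith

theorem reduce {s N a : ℕ} [NeZero N] (q : Fin s → ℕ) (hq : ∀ j, 3 ≤ q j) (ha : 1 ≤ a)
    (haN : ∀ j, (a : ℝ) < N * (1 / 2 - 1 / q j)) {K : Set (E × (Fin s → ℂ))}
    (hK : Convex ℝ K) (hKc : IsCompact K) (hKi : (interior K).Nonempty)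
    (hsym : ∀ j, zeta (q j) ∈ Mul K j) (TB : Finset E)
    (hTB : Prod.fst '' K ⊆ ⋃ t ∈ TB, (fun x => t + x) '' interior (Prod.fst '' K))
    (H : Finset (Fin s → Option (ZMod N))) (hH : ∀ κ, ∃ ω ∈ H, Fits a κ ω) :
    ∃ T : Finset (E × (Fin s → ℂ)), T.card ≤ TB.card * H.card ∧
      K ⊆ ⋃ t ∈ T, (fun x => t + x) '' interior K := by
  classical
  -- bounds
  obtain ⟨R, hR0, hR⟩ : ∃ R : ℝ, 0 < R ∧ ∀ p ∈ K, ∀ j, ‖p.2 j‖ ≤ R := by
    obtain ⟨R, hR0, hR⟩ := hKc.isBounded.exists_pos_norm_le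
    refine ⟨R, hR0, fun p hp j => ?_⟩
    exact (norm_le_pi_norm p.2 j).trans ((norm_snd_le p).trans (hR p hp))
  choose δ hδ0 hδ using fun j => arc (q := q j) (hq j) ha (haN j)
  let Λ : Fin s → ℝ := fun j => R / δ j
  let dir : E × (Fin s → Option (ZMod N)) → E × (Fin s → ℂ) := fun tω =>
    (-tω.1, fun j => -((Λ j : ℂ) * dirOf (tω.2 j)))
  obtain ⟨T, hT, hcov⟩ := cover_of_illum hK hKc ((TB ×ˢ H).image dir) (by
    intro p hp
    have h1 : p.1 ∈ Prod.fst '' K := mem_image_of_mem _ hp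
    have h2 := hTB h1
    simp only [mem_iUnion] at h2
    obtain ⟨t, ht, b, hb, hbt⟩ := h2
    change t + b = p.1 at hbt
    have hbp : b = p.1 - t := by rw [← hbt]; abel
    -- the pattern of `p`
    have hκ' : ∀ j, ∃ o : Option (ZMod N), (p.2 j = 0 ∧ o = none) ∨
        (p.2 j ≠ 0 ∧ ∃ k, o = some k ∧ ∀ i < a, ∀ e : ℂ,
          e = ZMod.stdAddChar (k + (i : ZMod N)) →
          δ j * ‖p.2 j‖ ≤ Real.cos (π / q j) * (e * (starRingEnd ℂ) (p.2 j)).re
            - Real.sin (π / q j) * |(e * (starRingEnd ℂ) (p.2 j)).im|) := by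
      intro j
      by_cases hz : p.2 j = 0
      · exact ⟨none, Or.inl ⟨hz, rfl⟩⟩
      · obtain ⟨k, hk⟩ := hδ j (p.2 j) hz
        exact ⟨some k, Or.inr ⟨hz, k, rfl, hk⟩⟩
    choose κ hκ using hκ'
    obtain ⟨ω, hω, hfit⟩ := hH κ
    refine ⟨dir (t, ω), Finset.mem_image_of_mem _ (Finset.mem_product.mpr ⟨ht, hω⟩), ?_⟩
    -- the cone condition
    let w : Fin s → ℂ := fun j => if p.2 j = 0 then 0 else (Λ j : ℂ) * dirOf (ω j) / p.2 j - 1
    have hw : ∀ j, Real.sin (π / q j) * |(w j).im| ≤ Real.cos (π / q j) * (w j).re := by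
      intro j
      by_cases hz : p.2 j = 0
      · simp [w, hz]
      · simp only [w, hz, if_false]
        rcases hκ j with ⟨h, _⟩ | ⟨_, k, hk, hk'⟩
        · exact absurd h hz
        rcases hfit j with ⟨h, _⟩ | ⟨k', hk2, i, hi, hωj⟩
        · rw [hk] at h; cases h
        rw [hk] at hk2
        obtain rfl : k = k' := Option.some_injective _ hk2
        rw [hωj]
        exact cone_of_arc (hδ0 j) hz (hR p hp j) (hk' i hi _ rfl)
    have hzero : ∀ j, p.2 j = 0 → dirOf (ω j) = 0 := by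
      intro j hz
      rcases hκ j with ⟨_, h⟩ | ⟨h, _⟩
      · rcases hfit j with ⟨_, h'⟩ | ⟨k', hk2, _⟩
        · rw [h']; rfl
        · rw [h] at hk2; cases hk2
      · exact absurd hz h
    have hev : ∀ᶠ η : ℝ in 𝓝[>] 0, ∀ j, (1 : ℂ) - η * w j ∈ Mul K j :=
      eventually_all.mpr fun j => cone_mem hK (hq j) (hsym j) (hw j)
    obtain ⟨η, hη, hη0⟩ := (hev.and self_mem_nhdsWithin).exists
    have hη0 : (0 : ℝ) < η := hη0
    have hk := mul_all (fun j => (1 : ℂ) - η * w j) hη hp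
    have hc : (b, (0 : Fin s → ℂ)) ∈ interior K :=
      centre_mem_interior hK hKi hb q (fun j => zeta (q j)) (fun j => by have := hq j; omega)
        (fun j => zeta_prim (by have := hq j; omega)) hsym
    have h3 := hK.combo_self_interior_mem_interior hk hc
      (show (0 : ℝ) ≤ 1 / (1 + η) by positivity) (show 0 < η / (1 + η) by positivity)
      (by field_simp)
    refine ⟨η / (1 + η), by positivity, ?_⟩
    convert h3 using 1
    have hη1 : (1 + η) ≠ 0 := by positivity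
    refine Prod.ext ?_ ?_
    · change p.1 + (η / (1 + η)) • (-t) = (1 / (1 + η)) • p.1 + (η / (1 + η)) • b
      rw [hbp, smul_sub, smul_neg]
      have e : (1 : ℝ) / (1 + η) + η / (1 + η) = 1 := by
        rw [← add_div, div_self hη1]
      calc p.1 + -((η / (1 + η)) • t) = (1 : ℝ) • p.1 + -((η / (1 + η)) • t) := by rw [one_smul]
        _ = ((1 : ℝ) / (1 + η) + η / (1 + η)) • p.1 + -((η / (1 + η)) • t) := by rw [e]
        _ = _ := by rw [add_smul]; abel
    · funext j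
      change p.2 j + (η / (1 + η)) • (-((Λ j : ℂ) * dirOf (ω j)))
        = (1 / (1 + η)) • (((1 : ℂ) - η * w j) * p.2 j) + (η / (1 + η)) • (0 : ℂ)
      rw [smul_zero, add_zero, Complex.real_smul, Complex.real_smul]
      have hη1' : (1 + (η : ℂ)) ≠ 0 := by exact_mod_cast hη1
      by_cases hz : p.2 j = 0
      · rw [hz, hzero j hz]; simp
      · simp only [w, hz, if_false]
        push_cast
        field_simp
        ring)
  refine ⟨T, hT.trans (Finset.card_image_le.trans (Finset.card_product _ _).le), hcov⟩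

end Pool.Agent.Helper31.Rot
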