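import Pool.Agent.Helper31.Rot.Main
import Pool.Graph.R_seed8.R753.HS.C

set_option autoImplicit false
set_option linter.unusedSectionVars false

/-!
# Numerical estimates
-/

namespace Pool.Agent.Helper31.Rot

open Real

/-- `κ_r = (3 r - 2) / (r - 2)` -/
theorem pow_bound {s r : ℕ} (hs : 1 ≤ s) (hr : 7 ≤ r) :
    (1 + ((2 * r * s : ℕ) : ℝ) / ((s * (r - 2) - 1 : ℕ) : ℝ)) ^ s
      ≤ 5 / 4 * ((3 * (r : ℝ) - 2) / (r - 2)) ^ s := by
  have hr' : (7 : ℝ) ≤ r := by exact_mod_cast hr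
  have hs' : (1 : ℝ) ≤ s := by exact_mod_cast hs
  have h1 : ((s * (r - 2) - 1 : ℕ) : ℝ) = s * ((r : ℝ) - 2) - 1 := by
    have h2 : 1 ≤ s * (r - 2) := Nat.mul_pos hs (by omega)
    rw [Nat.cast_sub h2, Nat.cast_mul, Nat.cast_sub (by omega)]
    push_cast
    ring
  have hr2 : (0 : ℝ) < (r : ℝ) - 2 := by linarith
  have hsr : (5 : ℝ) ≤ s * ((r : ℝ) - 2) := by nlinarith
  set y : ℝ := 1 / (s * ((r : ℝ) - 2)) with hy
  have hy0 : 0 < y := by positivity
  have hy1 : y ≤ 1 / 5 := by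
    rw [hy]
    exact one_div_le_one_div_of_le (by norm_num) hsr
  have hκ : 0 < (3 * (r : ℝ) - 2) / (r - 2) := by
    apply div_pos _ hr2
    linarith
  have h3 : 1 + ((2 * r * s : ℕ) : ℝ) / ((s * (r - 2) - 1 : ℕ) : ℝ)
      ≤ (3 * (r : ℝ) - 2) / (r - 2) / (1 - y) := by
    rw [h1]
    have h4 : (1 - y) = (s * ((r : ℝ) - 2) - 1) / (s * ((r : ℝ) - 2)) := by
      rw [hy]
      field_simp
    have h5 : (0 : ℝ) < s * ((r : ℝ) - 2) - 1 := by linarith
    rw [h4]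
    push_cast
    have h6 : 1 + 2 * (r : ℝ) * s / (s * (r - 2) - 1)
        = (s * (3 * r - 2) - 1) / (s * (r - 2) - 1) := by
      field_simp
      ring
    have h7 : (3 * (r : ℝ) - 2) / (r - 2) / ((s * ((r : ℝ) - 2) - 1) / (s * ((r : ℝ) - 2)))
        = (s * (3 * r - 2)) / (s * (r - 2) - 1) := by
      field_simp
    rw [h6, h7]
    apply div_le_div_of_nonneg_right _ h5.le
    linarith
  have h8 : (0 : ℝ) ≤ 1 + ((2 * r * s : ℕ) : ℝ) / ((s * (r - 2) - 1 : ℕ) : ℝ) := by positivity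
  refine (pow_le_pow_left₀ h8 h3 s).trans ?_
  rw [div_pow]
  have h9 : 1 - 1 / ((r : ℝ) - 2) ≤ (1 - y) ^ s := by
    have := one_add_mul_le_pow (show (-2 : ℝ) ≤ -y by linarith) s
    have e : 1 + (s : ℝ) * -y = 1 - 1 / ((r : ℝ) - 2) := by
      rw [hy]
      field_simp
      ring
    rw [e] at this
    exact this
  have h10 : (4 : ℝ) / 5 ≤ (1 - y) ^ s := by
    refine le_trans ?_ h9
    have : 1 / ((r : ℝ) - 2) ≤ 1 / 5 := one_div_le_one_div_of_le (by norm_num) (by linarith)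
    linarith
  have hκs : 0 < ((3 * (r : ℝ) - 2) / (r - 2)) ^ s := by positivity
  rw [div_le_iff₀ (by linarith)]
  nlinarith

theorem exp_eight : (2980 : ℝ) ≤ Real.exp 8 := by
  have h := Real.exp_one_gt_d9
  have e : Real.exp 8 = Real.exp 1 ^ 8 := by rw [← Real.exp_nat_mul]; norm_num
  rw [e]
  calc (2980 : ℝ) ≤ 2.7182818283 ^ 8 := by norm_num
    _ ≤ Real.exp 1 ^ 8 := by gcongr

theorem exp_seven : (1096 : ℝ) ≤ Real.exp 7 := by
  have h := Real.exp_one_gt_d9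
  have e : Real.exp 7 = Real.exp 1 ^ 7 := by rw [← Real.exp_nat_mul]; norm_num
  rw [e]
  calc (1096 : ℝ) ≤ 2.7182818283 ^ 7 := by norm_num
    _ ≤ Real.exp 1 ^ 7 := by gcongr

theorem log_1500 : Real.log 1500 ≤ 7.5 := by
  rw [Real.log_le_iff_le_exp (by norm_num)]
  have h1 := exp_seven
  have h2 : (1.5 : ℝ) ≤ Real.exp (1 / 2) := by
    have := Real.add_one_le_exp (1 / 2 : ℝ)
    linarith
  have e : Real.exp 7.5 = Real.exp 7 * Real.exp (1 / 2) := by
    rw [← Real.exp_add]; norm_num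
  rw [e]
  nlinarith [Real.exp_pos 7]

theorem log_6500 : Real.log 6500 ≤ 9 := by
  rw [Real.log_le_iff_le_exp (by norm_num)]
  have h1 := exp_eight
  have h := Real.exp_one_gt_d9
  have e : Real.exp 9 = Real.exp 8 * Real.exp 1 := by
    rw [← Real.exp_add]; norm_num
  rw [e]
  nlinarith

theorem num_seven {s : ℕ} {L : ℝ} (hL : 0 ≤ L) (h : 200 + 50 * L ≤ s) :
    4 * Real.exp (2 * L) * (1 + 5 / 4 * s * Real.log (2 * (7 : ℕ) * s + 1)
      * ((3 * ((7 : ℕ) : ℝ) - 2) / ((7 : ℕ) - 2)) ^ s) < 4 ^ s := by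
  set x : ℝ := s / 100 with hx
  have hs : (s : ℝ) = 100 * x := by rw [hx]; ring
  have hx2 : 2 ≤ x := by
    have : (200 : ℝ) ≤ s := by linarith
    rw [hs] at this
    linarith
  have hκ : ((3 * ((7 : ℕ) : ℝ) - 2) / ((7 : ℕ) - 2)) = 19 / 5 := by norm_num
  rw [hκ]
  have hκ1 : (1 : ℝ) ≤ (19 / 5) ^ s := one_le_pow₀ (by norm_num)
  have h4 : (4 : ℝ) ^ s = (20 / 19) ^ s * (19 / 5) ^ s := by
    rw [← mul_pow]; norm_num
  have h5 : Real.exp (5 * x) ≤ (20 / 19 : ℝ) ^ s := by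
    have h6 : (1 : ℝ) / 20 ≤ Real.log (20 / 19) := by
      have := Real.one_sub_inv_le_log_of_pos (show (0 : ℝ) < 20 / 19 by norm_num)
      norm_num at this ⊢
      linarith
    rw [← Real.rpow_natCast, Real.rpow_def_of_pos (by norm_num)]
    apply Real.exp_le_exp.mpr
    rw [hs]
    nlinarith
  have hlog : Real.log (2 * (7 : ℕ) * s + 1) ≤ 6.5 + x := by
    have h6 : (2 * ((7 : ℕ) : ℝ) * s + 1) ≤ 1500 * x := by
      rw [hs]; push_cast; linarith
    refine (Real.log_le_log (by positivity) h6).trans ?_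
    rw [Real.log_mul (by norm_num) (by linarith)]
    have h7 := log_1500
    have h8 := Real.log_le_sub_one_of_pos (show 0 < x by linarith)
    norm_num at h7 ⊢
    linarith
  have h9 : Real.exp (2 * L) ≤ Real.exp (4 * x) / Real.exp 8 := by
    rw [← Real.exp_sub]
    apply Real.exp_le_exp.mpr
    rw [hs] at h
    linarith
  have h10 := Real.quadratic_le_exp_of_nonneg (show 0 ≤ x by linarith)
  have h8 := exp_eight
  have h11 : 4 * (1 + 125 * x * (6.5 + x)) < Real.exp 8 * Real.exp x := by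
    have : 2980 * (1 + x + x ^ 2 / 2) ≤ Real.exp 8 * Real.exp x :=
      mul_le_mul h8 h10 (by positivity) (Real.exp_pos _).le
    nlinarith
  have hlog0 : 0 ≤ Real.log (2 * (7 : ℕ) * s + 1) := Real.log_nonneg (by
    have : (0 : ℝ) ≤ s := by positivity
    push_cast; linarith)
  calc 4 * Real.exp (2 * L) * (1 + 5 / 4 * s * Real.log (2 * (7 : ℕ) * s + 1) * (19 / 5) ^ s)
      ≤ 4 * (Real.exp (4 * x) / Real.exp 8) *
        ((19 / 5) ^ s + 5 / 4 * s * (6.5 + x) * (19 / 5) ^ s) := by gcongr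
    _ = (Real.exp (4 * x) / Real.exp 8) * (4 * (1 + 125 * x * (6.5 + x))) * (19 / 5) ^ s := by
        rw [hs]; ring
    _ < (Real.exp (4 * x) / Real.exp 8) * (Real.exp 8 * Real.exp x) * (19 / 5) ^ s := by
        gcongr
    _ = Real.exp (5 * x) * (19 / 5) ^ s := by
        rw [show (5 * x) = 4 * x + x by ring, Real.exp_add]
        field_simp
    _ ≤ (20 / 19) ^ s * (19 / 5) ^ s := by gcongr
    _ = 4 ^ s := h4.symm

theorem num_full {s : ℕ} {L : ℝ} (hL : 0 ≤ L) (h : 28 + 8 * L ≤ s) :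
    4 * Real.exp (2 * L) * (1 + 5 / 4 * s * Real.log (2 * (4 * s + 3 : ℕ) * s + 1)
      * ((3 * ((4 * s + 3 : ℕ) : ℝ) - 2) / ((4 * s + 3 : ℕ) - 2)) ^ s) < 4 ^ s := by
  set x : ℝ := s / 28 with hx
  have hs : (s : ℝ) = 28 * x := by rw [hx]; ring
  have hx1 : 1 ≤ x := by
    have : (28 : ℝ) ≤ s := by linarith
    rw [hs] at this
    linarith
  have hs0 : (0 : ℝ) ≤ s := by positivity
  have hκ : ((3 * ((4 * s + 3 : ℕ) : ℝ) - 2) / ((4 * s + 3 : ℕ) - 2)) ^ s ≤ 7 / 5 * 3 ^ s := by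
    have h1 : ((3 * ((4 * s + 3 : ℕ) : ℝ) - 2) / ((4 * s + 3 : ℕ) - 2))
        = 3 * (1 + 4 / (3 * (4 * s + 1))) := by
      have h0 : (4 * (s : ℝ) + 1) ≠ 0 := by positivity
      have e : (((4 * s + 3 : ℕ) : ℝ) - 2) = 4 * s + 1 := by push_cast; ring
      rw [e]
      push_cast
      field_simp
      ring
    rw [h1, mul_pow]
    have h2 : (1 + 4 / (3 * (4 * (s : ℝ) + 1))) ^ s ≤ 7 / 5 := by
      have h3 : (1 + 4 / (3 * (4 * (s : ℝ) + 1))) ≤ Real.exp (4 / (3 * (4 * s + 1))) := by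
        have := Real.add_one_le_exp (4 / (3 * (4 * (s : ℝ) + 1)))
        linarith
      have h4 : Real.exp (4 / (3 * (4 * (s : ℝ) + 1))) ^ s ≤ Real.exp (1 / 3) := by
        rw [← Real.exp_nat_mul]
        apply Real.exp_le_exp.mpr
        rw [mul_div_assoc', div_le_div_iff₀ (by positivity) (by norm_num)]
        nlinarith
      have h5 : Real.exp (1 / 3) ≤ 7 / 5 := by
        have h6 : Real.exp (1 / 3) ^ 3 = Real.exp 1 := by
          rw [← Real.exp_nat_mul]; norm_num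
        have h7 := Real.exp_one_lt_d9
        by_contra hcon
        push Not at hcon
        have h8 : (7 / 5 : ℝ) ^ 3 < Real.exp (1 / 3) ^ 3 := by gcongr
        rw [h6] at h8
        norm_num at h8 h7
        linarith
      calc (1 + 4 / (3 * (4 * (s : ℝ) + 1))) ^ s ≤ Real.exp (4 / (3 * (4 * s + 1))) ^ s := by
            gcongr
        _ ≤ _ := h4.trans h5
    nlinarith [show (0 : ℝ) < 3 ^ s by positivity]
  have hκ1 : (1 : ℝ) ≤ 3 ^ s := one_le_pow₀ (by norm_num)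
  have h4 : (4 : ℝ) ^ s = (4 / 3) ^ s * 3 ^ s := by
    rw [← mul_pow]; norm_num
  have h5 : Real.exp (8 * x) ≤ (4 / 3 : ℝ) ^ s := by
    have h6 : (2 : ℝ) / 7 ≤ Real.log (4 / 3) := by
      have h7 : Real.exp 2 ≤ (4 / 3 : ℝ) ^ 7 := by
        have h8 := Real.exp_one_lt_d9
        have e : Real.exp 2 = Real.exp 1 ^ 2 := by rw [← Real.exp_nat_mul]; norm_num
        rw [e]
        calc Real.exp 1 ^ 2 ≤ 2.7182818286 ^ 2 := by gcongr
          _ ≤ (4 / 3) ^ 7 := by norm_num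
      have h8 := (Real.le_log_iff_exp_le (by positivity)).mpr h7
      rw [Real.log_pow] at h8
      push_cast at h8
      linarith
    rw [← Real.rpow_natCast, Real.rpow_def_of_pos (by norm_num)]
    apply Real.exp_le_exp.mpr
    rw [hs]
    nlinarith
  have hlog : Real.log (2 * (4 * s + 3 : ℕ) * s + 1) ≤ 7 + 2 * x := by
    have h6 : (2 * ((4 * s + 3 : ℕ) : ℝ) * s + 1) ≤ 6500 * x ^ 2 := by
      push_cast
      rw [hs]
      nlinarith
    refine (Real.log_le_log (by positivity) h6).trans ?_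
    rw [Real.log_mul (by norm_num) (by positivity), Real.log_pow]
    have h7 := log_6500
    have h8 := Real.log_le_sub_one_of_pos (show 0 < x by linarith)
    push_cast
    linarith
  have h9 : Real.exp (2 * L) ≤ Real.exp (7 * x) / Real.exp 7 := by
    rw [← Real.exp_sub]
    apply Real.exp_le_exp.mpr
    rw [hs] at h
    linarith
  have h10 := Real.quadratic_le_exp_of_nonneg (show 0 ≤ x by linarith)
  have h8 := exp_seven
  have h11 : 4 * (1 + 49 * x * (7 + 2 * x)) < Real.exp 7 * Real.exp x := by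
    have : 1096 * (1 + x + x ^ 2 / 2) ≤ Real.exp 7 * Real.exp x :=
      mul_le_mul h8 h10 (by positivity) (Real.exp_pos _).le
    nlinarith [sq_nonneg (x - 1)]
  have hlog0 : 0 ≤ Real.log (2 * (4 * s + 3 : ℕ) * s + 1) := Real.log_nonneg (by
    push_cast; nlinarith)
  have hκ0 : 0 ≤ ((3 * ((4 * s + 3 : ℕ) : ℝ) - 2) / ((4 * s + 3 : ℕ) - 2)) ^ s := by
    apply pow_nonneg
    push_cast
    apply div_nonneg <;> linarith
  set κs := ((3 * ((4 * s + 3 : ℕ) : ℝ) - 2) / ((4 * s + 3 : ℕ) - 2)) ^ s with hκs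
  set lg := Real.log (2 * (4 * s + 3 : ℕ) * s + 1) with hlg
  calc 4 * Real.exp (2 * L) * (1 + 5 / 4 * s * lg * κs)
      ≤ 4 * (Real.exp (7 * x) / Real.exp 7) *
        (3 ^ s + 5 / 4 * s * (7 + 2 * x) * (7 / 5 * 3 ^ s)) := by gcongr
    _ = (Real.exp (7 * x) / Real.exp 7) * (4 * (1 + 49 * x * (7 + 2 * x))) * 3 ^ s := by
        rw [hs]; ring
    _ < (Real.exp (7 * x) / Real.exp 7) * (Real.exp 7 * Real.exp x) * 3 ^ s := by
        gcongr
    _ = Real.exp (8 * x) * 3 ^ s := by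
        rw [show (8 * x) = 7 * x + x by ring, Real.exp_add]
        field_simp
    _ ≤ (4 / 3) ^ s * 3 ^ s := by gcongr
    _ = 4 ^ s := h4.symm

theorem beta_le (m : ℕ) : Pool.Agent.R753.HS.beta m ≤ 2 ^ m * (4 * Real.exp (2 * Real.log (m + 1))) := by
  have h1 : Real.exp (2 * Real.log ((m : ℝ) + 1)) = ((m : ℝ) + 1) ^ 2 := by
    rw [mul_comm, Real.exp_mul, Real.exp_log (by positivity)]
    norm_num
  rw [h1]
  have h2 : (0 : ℝ) < 2 ^ m := by positivity
  rcases Nat.lt_or_ge m 2 with h | h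
  · have : Pool.Agent.R753.HS.beta m = 2 ^ m := by
      unfold Pool.Agent.R753.HS.beta
      rw [if_pos (by omega)]
    rw [this]
    have h3 : (0 : ℝ) ≤ m := by positivity
    exact le_mul_of_one_le_right h2.le (by nlinarith)
  · have := (Pool.Agent.R753.HS.beta_lt h le_rfl).le
    have h3 : (0 : ℝ) ≤ m := by positivity
    calc Pool.Agent.R753.HS.beta m ≤ 4 * (m : ℝ) ^ 2 * 2 ^ m := this
      _ = 2 ^ m * (4 * (m : ℝ) ^ 2) := by ring
      _ ≤ 2 ^ m * (4 * ((m : ℝ) + 1) ^ 2) := by gcongr; linarith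

end Pool.Agent.Helper31.Rot
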